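import Pool.Agent.Q37.QI.Trunc

/-!
# Regular sequences on `C` and on `R`
-/

open CategoryTheory CategoryTheory.Limits CategoryTheory.Abelian Opposite IsLocalRing
open RingTheory.Sequence
open scoped Pointwise

namespace Pool.Agent.Q37.QI

open Pool.Agent.Q37.PC

universe u

variable {R : Type u} [CommRing R]
variable (C : Type u) [AddCommGroup C] [Module R C]

lemma reg_hom_iff [IsNoetherianRing R] [Module.Finite R C] (hann : Module.annihilator R C = ⊥)
    (N : Type u) [AddCommGroup N] [Module R N] [Module.Finite R N] (x : R) :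
    IsSMulRegular (C →ₗ[R] N) x ↔ IsSMulRegular N x := by
  constructor
  · intro hx
    have h1 : Subsingleton (C →ₗ[R] LinearMap.ker (x • (LinearMap.id : N →ₗ[R] N))) := by
      refine subsingleton_of_forall_eq 0 fun φ => ?_
      have h2 : (LinearMap.ker (x • (LinearMap.id : N →ₗ[R] N))).subtype ∘ₗ φ = 0 := by
        apply hx
        refine LinearMap.ext fun c => ?_
        change x • (φ c : N) = x • (0 : N)
        rw [smul_zero]
        exact (φ c).2
      refine LinearMap.ext fun c => Subtype.ext ?_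
      exact congrArg (fun f => f c) h2
    obtain ⟨r, hr, hreg⟩ := IsSMulRegular.subsingleton_linearMap_iff.1 h1
    rw [hann, Ideal.mem_bot] at hr
    subst hr
    have h3 : ∀ y : LinearMap.ker (x • (LinearMap.id : N →ₗ[R] N)), y = 0 := by
      intro y
      apply hreg
      simp
    rw [isSMulRegular_iff_right_eq_zero_of_smul]
    intro y hy
    exact congrArg Subtype.val (h3 ⟨y, hy⟩)
  · intro hx φ ψ h
    refine LinearMap.ext fun c => hx ?_
    exact congrArg (fun f => f c) h

variable {N : Type u} [AddCommGroup N] [Module R N]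

lemma quot_hom_equiv (h1 : EV R 1 C N) {x : R} (hx : IsSMulRegular N x) :
    Nonempty (QuotSMulTop x (C →ₗ[R] N) ≃ₗ[R] (C →ₗ[R] QuotSMulTop x N)) := by
  let π : N →ₗ[R] QuotSMulTop x N := Submodule.mkQ (x • (⊤ : Submodule R N))
  let F : (C →ₗ[R] N) →ₗ[R] (C →ₗ[R] QuotSMulTop x N) := LinearMap.llcomp R C N _ π
  have hF : ∀ φ, F φ = π ∘ₗ φ := fun φ => rfl
  have hsurj : Function.Surjective F := by
    intro φ
    obtain ⟨ψ, hψ⟩ := EV.lift (exact_smul x) hx (Submodule.mkQ_surjective _) h1 φ
    exact ⟨ψ, hψ⟩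
  have hker : x • (⊤ : Submodule R (C →ₗ[R] N)) = LinearMap.ker F := by
    ext φ
    rw [Submodule.mem_smul_pointwise_iff_exists, LinearMap.mem_ker, hF]
    constructor
    · rintro ⟨ψ, -, rfl⟩
      refine LinearMap.ext fun c => ?_
      exact (exact_smul (N := N) x _).2 ⟨ψ c, rfl⟩
    · intro h
      have h2 : ∀ c, ∃ n : N, x • n = φ c := by
        intro c
        obtain ⟨n, hn⟩ := (exact_smul (N := N) x (φ c)).1 (congrArg (fun f => f c) h)
        exact ⟨n, hn⟩
      choose g hg using h2
      refine ⟨⟨⟨g, fun c d => hx ?_⟩, fun r c => hx ?_⟩, trivial, LinearMap.ext hg⟩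
      · change x • g (c + d) = x • (g c + g d)
        rw [smul_add, hg, hg, hg, map_add]
      · change x • g (r • c) = x • (r • g c)
        rw [smul_comm x r, hg, hg, map_smul]
  exact ⟨(Submodule.quotEquivOfEq _ _ hker).trans (F.quotKerEquivOfSurjective hsurj)⟩

lemma ev_quot (hE : ∀ j : ℕ, EV R (j + 1) C N) {x : R} (hx : IsSMulRegular N x) (j : ℕ) :
    EV R (j + 1) C (QuotSMulTop x N) :=
  EV.cov3 (exact_smul x) hx (Submodule.mkQ_surjective _) (hE j) (hE (j + 1))

theorem weaklyRegular_iff [IsNoetherianRing R] [Module.Finite R C]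
    (hann : Module.annihilator R C = ⊥) (xs : List R) :
    ∀ (N : Type u) [AddCommGroup N] [Module R N] [Module.Finite R N],
      (∀ j : ℕ, EV R (j + 1) C N) → (IsWeaklyRegular (C →ₗ[R] N) xs ↔ IsWeaklyRegular N xs) := by
  induction xs with
  | nil => intro N _ _ _ _; exact ⟨fun _ => IsWeaklyRegular.nil _ _, fun _ => IsWeaklyRegular.nil _ _⟩
  | cons x xs ih =>
    intro N _ _ _ hE
    rw [isWeaklyRegular_cons_iff, isWeaklyRegular_cons_iff, reg_hom_iff C hann]
    refine and_congr_right fun hx => ?_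
    obtain ⟨e⟩ := quot_hom_equiv C (hE 0) hx
    rw [e.isWeaklyRegular_congr]
    exact ih _ (ev_quot C hE hx)

end Pool.Agent.Q37.QI
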