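import Pool.Agent.Q37.QI.Hc

/-!
# Finite generation of `H_i(Hom(N, I))`
-/

open CategoryTheory CategoryTheory.Limits CategoryTheory.Abelian Opposite

namespace Pool.Agent.Q37.QI

open Pool.Agent.Q37.PC

universe u

variable {R : Type u} [CommRing R] (I : ChainComplex (ModuleCat.{u} R) ℤ)
  [hI : ∀ i, Injective (I.X i)]

section sums

variable {N N' : Type u} [AddCommGroup N] [Module R N] [AddCommGroup N'] [Module R N']

lemma noeth_prod (i : ℤ) (h1 : IsNoetherian R (hh I N i)) (h2 : IsNoetherian R (hh I N' i)) :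
    IsNoetherian R (hh I (N × N') i) :=
  noeth_mid I (LinearMap.inl R N N') (LinearMap.snd R N N') Function.Exact.inl_snd
    LinearMap.inl_injective LinearMap.snd_surjective i h2 h1

lemma sub_prod (i : ℤ) (h1 : Subsingleton (hh I N i)) (h2 : Subsingleton (hh I N' i)) :
    Subsingleton (hh I (N × N') i) :=
  sub_mid I (LinearMap.inl R N N') (LinearMap.snd R N N') Function.Exact.inl_snd
    LinearMap.inl_injective LinearMap.snd_surjective i h2 h1

omit hI in
lemma noeth_equiv (e : N ≃ₗ[R] N') (i : ℤ) (h : IsNoetherian R (hh I N' i)) :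
    IsNoetherian R (hh I N i) := isNoetherian_of_linearEquiv (hEquiv I e i)

omit hI in
lemma sub_equiv (e : N ≃ₗ[R] N') (i : ℤ) (h : Subsingleton (hh I N' i)) :
    Subsingleton (hh I N i) := (hEquiv I e i).symm.toEquiv.subsingleton

lemma noeth_pi (i : ℤ) (h : IsNoetherian R (hh I N i)) (n : ℕ) :
    IsNoetherian R (hh I (Fin n → N) i) := by
  induction n with
  | zero =>
    have := hh_subsingleton_module I (N := Fin 0 → N) i
    infer_instance
  | succ n ih =>
    exact noeth_equiv I (Fin.consLinearEquiv R (fun _ : Fin (n + 1) => N)).symm i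
      (noeth_prod I i h ih)

lemma sub_pi (i : ℤ) (h : Subsingleton (hh I N i)) (n : ℕ) :
    Subsingleton (hh I (Fin n → N) i) := by
  induction n with
  | zero => exact hh_subsingleton_module I (N := Fin 0 → N) i
  | succ n ih =>
    exact sub_equiv I (Fin.consLinearEquiv R (fun _ : Fin (n + 1) => N)).symm i
      (sub_prod I i h ih)

end sums

/-- Step 1: if `H_i(Hom(C, I))` is finitely generated for all `i`, then so is
`H_i(Hom(Hom(Ω, C), I))` whenever `Ext^{>0}(Ω, C) = 0`. -/
theorem noeth_hom [IsNoetherianRing R] (C : Type u) [AddCommGroup C] [Module R C]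
    (hC : ∀ i, IsNoetherian R (hh I C i)) (a : ℤ) (ha : ∀ i < a, IsZero (I.X i)) (n : ℕ) :
    ∀ i < a + n, ∀ (Ω : Type u) [AddCommGroup Ω] [Module R Ω] [Module.Finite R Ω],
      (∀ j : ℕ, EV R (j + 1) Ω C) → IsNoetherian R (hh I (Ω →ₗ[R] C) i) := by
  induction n with
  | zero =>
    intro i hi Ω _ _ _ _
    have := hh_zero I (N := Ω →ₗ[R] C) (ha i (by simpa using hi))
    infer_instance
  | succ n ih =>
    intro i hi Ω _ _ _ hΩ
    obtain ⟨m, q, hq⟩ := Module.Finite.exists_fin' R Ω
    have hex : Function.Exact (LinearMap.ker q).subtype q := LinearMap.exact_subtype_ker_map q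
    have hinj : Function.Injective (LinearMap.ker q).subtype := Submodule.subtype_injective _
    have hK : ∀ j : ℕ, EV R (j + 1) (LinearMap.ker q) C := fun j =>
      EV.con1 hex hinj hq (EV.of_projective j) (hΩ (j + 1))
    have h1 := ih (i - 1) (by push_cast at hi ⊢; omega) (LinearMap.ker q) hK
    have h2 : IsNoetherian R (hh I ((Fin m → R) →ₗ[R] C) i) := by
      refine noeth_equiv I ?_ i (noeth_pi I i (hC i) m)
      exact ((Pi.basisFun R (Fin m)).constr R).symm
    refine noeth_sub I (LinearMap.lcomp R C q) (LinearMap.lcomp R C (LinearMap.ker q).subtype)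
      ?_ ?_ ?_ i (i - 1) (by ring) h2 h1
    · intro φ
      constructor
      · intro hφ
        have h3 : LinearMap.ker q ≤ LinearMap.ker φ := by
          intro x hx
          exact congrArg (fun ψ => ψ ⟨x, hx⟩) hφ
        refine ⟨((LinearMap.ker q).liftQ φ h3) ∘ₗ
          (q.quotKerEquivOfSurjective hq).symm.toLinearMap, ?_⟩
        refine LinearMap.ext fun x => ?_
        have h4 : (q.quotKerEquivOfSurjective hq).symm (q x) = Submodule.Quotient.mk x := by
          rw [LinearEquiv.symm_apply_eq]
          rfl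
        change ((LinearMap.ker q).liftQ φ h3) ((q.quotKerEquivOfSurjective hq).symm (q x)) = _
        rw [h4]
        rfl
      · rintro ⟨ψ, rfl⟩
        refine LinearMap.ext fun x => ?_
        change ψ (q x) = 0
        rw [show q (x : Fin m → R) = 0 from x.2, map_zero]
    · intro φ ψ h
      ext x
      obtain ⟨y, rfl⟩ := hq x
      exact congrArg (fun f => f y) h
    · intro φ
      obtain ⟨ψ, hψ⟩ := EV.extend hex hinj hq (hΩ 0) φ
      exact ⟨ψ, hψ⟩

/-- Step 2: `H_i(Hom(N, I))` is finitely generated for all finitely generated `N`, if this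
holds for `N = R` and `I` is bounded above. -/
theorem noeth_all [IsNoetherianRing R] (hR : ∀ i, IsNoetherian R (hh I R i)) (s : ℤ)
    (hs : ∀ i > s, IsZero (I.X i)) (n : ℕ) :
    ∀ i > s - n, ∀ (N : Type u) [AddCommGroup N] [Module R N] [Module.Finite R N],
      IsNoetherian R (hh I N i) := by
  induction n with
  | zero =>
    intro i hi N _ _ _
    have := hh_zero I (N := N) (hs i (by simpa using hi))
    infer_instance
  | succ n ih =>
    intro i hi N _ _ _
    obtain ⟨m, q, hq⟩ := Module.Finite.exists_fin' R N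
    have h1 := ih (i + 1) (by push_cast at hi ⊢; omega) (LinearMap.ker q)
    exact noeth_quot I (LinearMap.ker q).subtype q (LinearMap.exact_subtype_ker_map q)
      (Submodule.subtype_injective _) hq (i + 1) i rfl h1 (noeth_pi I i (hR i) m)

end Pool.Agent.Q37.QI
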