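import Pool.Agent.Q37.PC.ExtLem

/-!
# The homology of `Hom_R(N, I)` for a complex `I` of injective modules, as a functor of `N`
-/

open CategoryTheory CategoryTheory.Limits CategoryTheory.Abelian Opposite

namespace Pool.Agent.Q37.QI

open Pool.Agent.Q37.PC

universe u

variable {R : Type u} [CommRing R]

/-- The complex `Hom_R(N, I)`. -/
noncomputable abbrev HomC (N : Type u) [AddCommGroup N] [Module R N]
    (I : ChainComplex (ModuleCat.{u} R) ℤ) : ChainComplex (ModuleCat.{u} R) ℤ :=
  (((linearCoyoneda R (ModuleCat.{u} R)).obj (op (ModuleCat.of R N))).mapHomologicalComplex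
    (ComplexShape.down ℤ)).obj I

variable {N N' N'' : Type u} [AddCommGroup N] [Module R N] [AddCommGroup N'] [Module R N']
  [AddCommGroup N''] [Module R N'']

/-- Functoriality in `N`. -/
noncomputable abbrev HomMap (f : N →ₗ[R] N') (I : ChainComplex (ModuleCat.{u} R) ℤ) :
    HomC N' I ⟶ HomC N I :=
  (NatTrans.mapHomologicalComplex ((linearCoyoneda R (ModuleCat.{u} R)).map
    (ModuleCat.ofHom f).op) (ComplexShape.down ℤ)).app I

variable (I : ChainComplex (ModuleCat.{u} R) ℤ)

/-- The short complex `Hom(N'', I) → Hom(N, I) → Hom(N', I)`. -/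
noncomputable abbrev scHom (f : N' →ₗ[R] N) (g : N →ₗ[R] N'') (h : Function.Exact f g) :
    ShortComplex (ChainComplex (ModuleCat.{u} R) ℤ) :=
  ShortComplex.mk (HomMap g I) (HomMap f I) (by
    ext i φ
    exact ModuleCat.hom_ext (LinearMap.ext fun x =>
      (congrArg φ.hom (h.apply_apply_eq_zero x)).trans (map_zero _)))

lemma scHom_shortExact [hI : ∀ i, Injective (I.X i)] (f : N' →ₗ[R] N) (g : N →ₗ[R] N'')
    (h : Function.Exact f g) (hf : Function.Injective f) (hg : Function.Surjective g) :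
    (scHom I f g h).ShortExact := by
  refine HomologicalComplex.shortExact_of_degreewise_shortExact _ fun i => ?_
  have hS := sc_exact f g h hf hg
  have hm : Mono (ModuleCat.ofHom f) := hS.mono_f
  have he : Epi (ModuleCat.ofHom g) := hS.epi_g
  refine ShortComplex.ShortExact.mk' ?_ ?_ ?_
  · rw [ShortComplex.moduleCat_exact_iff]
    intro φ hφ
    exact ⟨hS.exact.desc φ hφ, hS.exact.g_desc φ hφ⟩
  · rw [ModuleCat.mono_iff_injective]
    intro φ ψ hφψ
    exact (cancel_epi (ModuleCat.ofHom g)).1 hφψ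
  · rw [ModuleCat.epi_iff_surjective]
    intro φ
    exact ⟨Injective.factorThru φ (ModuleCat.ofHom f), Injective.comp_factorThru φ _⟩

/-- `H_i(Hom(N, I))`. -/
noncomputable abbrev hh (N : Type u) [AddCommGroup N] [Module R N] (i : ℤ) : ModuleCat.{u} R :=
  (HomC N I).homology i

/-- The map induced on homology. -/
noncomputable abbrev hmap (f : N →ₗ[R] N') (i : ℤ) : hh I N' i →ₗ[R] hh I N i :=
  (HomologicalComplex.homologyMap (HomMap f I) i).hom

lemma HomMap_id : HomMap (LinearMap.id : N →ₗ[R] N) I = 𝟙 _ := by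
  ext i φ
  exact ModuleCat.hom_ext (LinearMap.ext fun x => rfl)

lemma HomMap_comp (f : N' →ₗ[R] N) (g : N →ₗ[R] N'') :
    HomMap (g ∘ₗ f) I = HomMap g I ≫ HomMap f I := by
  ext i φ
  exact ModuleCat.hom_ext (LinearMap.ext fun x => rfl)

lemma HomMap_smul (r : R) (f : N' →ₗ[R] N) : HomMap (r • f) I = r • HomMap f I := by
  ext i φ
  exact ModuleCat.hom_ext (LinearMap.ext fun x => map_smul φ.hom r (f x))

lemma hmap_id (i : ℤ) : hmap I (LinearMap.id : N →ₗ[R] N) i = LinearMap.id := by
  rw [hmap, HomMap_id, HomologicalComplex.homologyMap_id]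
  rfl

lemma hmap_comp (f : N' →ₗ[R] N) (g : N →ₗ[R] N'') (i : ℤ) :
    hmap I (g ∘ₗ f) i = hmap I f i ∘ₗ hmap I g i := by
  rw [hmap, HomMap_comp, HomologicalComplex.homologyMap_comp]
  rfl

lemma hmap_smul (r : R) (f : N' →ₗ[R] N) (i : ℤ) : hmap I (r • f) i = r • hmap I f i := by
  rw [hmap, HomMap_smul]
  have : HomologicalComplex.homologyMap (r • HomMap f I) i =
      r • HomologicalComplex.homologyMap (HomMap f I) i :=
    ShortComplex.homologyMap_smul ((HomologicalComplex.shortComplexFunctor _ _ i).map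
      (HomMap f I)) r
  rw [this]
  rfl

/-- Isomorphic modules. -/
noncomputable def hEquiv (e : N ≃ₗ[R] N') (i : ℤ) : hh I N' i ≃ₗ[R] hh I N i :=
  LinearEquiv.ofLinearMap (hmap I (e : N →ₗ[R] N') i) (hmap I (e.symm : N' →ₗ[R] N) i)
    (by rw [← hmap_comp]; simp [hmap_id]) (by rw [← hmap_comp]; simp [hmap_id])

lemma hh_zero {i : ℤ} (h : IsZero (I.X i)) : Subsingleton (hh I N i) := by
  have h1 : IsZero ((HomC N I).X i) := by
    rw [ModuleCat.isZero_iff_subsingleton] at h ⊢
    exact ⟨fun f g => ModuleCat.hom_ext (LinearMap.ext fun x => Subsingleton.elim _ _)⟩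
  rw [← ModuleCat.isZero_iff_subsingleton]
  exact (ShortComplex.exact_iff_isZero_homology _).1 (ShortComplex.exact_of_isZero_X₂ _ h1)

lemma hh_subsingleton_module [Subsingleton N] (i : ℤ) : Subsingleton (hh I N i) := by
  have h1 : IsZero ((HomC N I).X i) := by
    rw [ModuleCat.isZero_iff_subsingleton]
    exact ⟨fun f g => ModuleCat.hom_ext (LinearMap.ext fun x => by
      rw [Subsingleton.elim x 0, map_zero, map_zero])⟩
  rw [← ModuleCat.isZero_iff_subsingleton]
  exact (ShortComplex.exact_iff_isZero_homology _).1 (ShortComplex.exact_of_isZero_X₂ _ h1)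

section alg

variable {A B D : Type*} [AddCommGroup A] [Module R A] [AddCommGroup B] [Module R B]
  [AddCommGroup D] [Module R D] {α : A →ₗ[R] B} {β : B →ₗ[R] D}

lemma subsingleton_of_exact (h : Function.Exact α β) (hA : Subsingleton A)
    (hD : Subsingleton D) : Subsingleton B := by
  refine subsingleton_of_forall_eq 0 fun b => ?_
  obtain ⟨a, rfl⟩ := (h b).1 (Subsingleton.elim _ _)
  rw [Subsingleton.elim a 0, map_zero]

lemma noetherian_of_exact (h : Function.Exact α β) (hA : IsNoetherian R A)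
    (hD : IsNoetherian R D) : IsNoetherian R B :=
  isNoetherian_of_range_eq_ker α β (LinearMap.exact_iff.1 h).symm

end alg

section les

variable [hI : ∀ i, Injective (I.X i)] (f : N' →ₗ[R] N) (g : N →ₗ[R] N'')
  (h : Function.Exact f g) (hf : Function.Injective f) (hg : Function.Surjective g)

include h hf hg

lemma exact_mid (i : ℤ) : Function.Exact (hmap I g i) (hmap I f i) :=
  (ShortComplex.ShortExact.moduleCat_exact_iff_function_exact _).1
    ((scHom_shortExact I f g h hf hg).homology_exact₂ i)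

lemma exact_right (i j : ℤ) (hij : j + 1 = i) : ∃ δ : hh I N' i →ₗ[R] hh I N'' j,
    Function.Exact (hmap I f i) δ ∧ Function.Exact δ (hmap I g j) := by
  refine ⟨((scHom_shortExact I f g h hf hg).δ i j hij).hom, ?_, ?_⟩
  · exact (ShortComplex.ShortExact.moduleCat_exact_iff_function_exact _).1
      ((scHom_shortExact I f g h hf hg).homology_exact₃ i j hij)
  · exact (ShortComplex.ShortExact.moduleCat_exact_iff_function_exact _).1
      ((scHom_shortExact I f g h hf hg).homology_exact₁ i j hij)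

lemma sub_mid (i : ℤ) (h1 : Subsingleton (hh I N'' i)) (h2 : Subsingleton (hh I N' i)) :
    Subsingleton (hh I N i) :=
  subsingleton_of_exact (exact_mid I f g h hf hg i) h1 h2

lemma sub_sub (i j : ℤ) (hij : j + 1 = i) (h1 : Subsingleton (hh I N i))
    (h2 : Subsingleton (hh I N'' j)) : Subsingleton (hh I N' i) := by
  obtain ⟨δ, h3, -⟩ := exact_right I f g h hf hg i j hij
  exact subsingleton_of_exact h3 h1 h2

lemma sub_quot (i j : ℤ) (hij : j + 1 = i) (h1 : Subsingleton (hh I N' i))
    (h2 : Subsingleton (hh I N j)) : Subsingleton (hh I N'' j) := by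
  obtain ⟨δ, -, h3⟩ := exact_right I f g h hf hg i j hij
  exact subsingleton_of_exact h3 h1 h2

lemma noeth_mid (i : ℤ) (h1 : IsNoetherian R (hh I N'' i)) (h2 : IsNoetherian R (hh I N' i)) :
    IsNoetherian R (hh I N i) :=
  noetherian_of_exact (exact_mid I f g h hf hg i) h1 h2

lemma noeth_sub (i j : ℤ) (hij : j + 1 = i) (h1 : IsNoetherian R (hh I N i))
    (h2 : IsNoetherian R (hh I N'' j)) : IsNoetherian R (hh I N' i) := by
  obtain ⟨δ, h3, -⟩ := exact_right I f g h hf hg i j hij
  exact noetherian_of_exact h3 h1 h2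

lemma noeth_quot (i j : ℤ) (hij : j + 1 = i) (h1 : IsNoetherian R (hh I N' i))
    (h2 : IsNoetherian R (hh I N j)) : IsNoetherian R (hh I N'' j) := by
  obtain ⟨δ, -, h3⟩ := exact_right I f g h hf hg i j hij
  exact noetherian_of_exact h3 h1 h2

end les

end Pool.Agent.Q37.QI
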