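import Pool.Agent.Q37.QI.Fin

/-!
# Lowest and top homology modules
-/

open CategoryTheory CategoryTheory.Limits CategoryTheory.Abelian Opposite IsLocalRing
open RingTheory.Sequence
open scoped Pointwise

namespace Pool.Agent.Q37.QI

open Pool.Agent.Q37.PC

universe u

variable {R : Type u} [CommRing R] (I : ChainComplex (ModuleCat.{u} R) ℤ)
  [hI : ∀ i, Injective (I.X i)]

section quot

variable {N : Type u} [AddCommGroup N] [Module R N]

lemma exact_smul (x : R) : Function.Exact (x • (LinearMap.id : N →ₗ[R] N))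
    (Submodule.mkQ (x • (⊤ : Submodule R N))) := by
  intro y
  rw [Submodule.mkQ_apply, Submodule.Quotient.mk_eq_zero, Submodule.mem_smul_pointwise_iff_exists]
  constructor
  · rintro ⟨z, -, rfl⟩
    exact ⟨z, rfl⟩
  · rintro ⟨z, rfl⟩
    exact ⟨z, trivial, rfl⟩

lemma quot_sub {x : R} (hx : IsSMulRegular N x) (b : ℤ) (h0 : ∀ i < b, Subsingleton (hh I N i)) :
    ∀ i < b - 1, Subsingleton (hh I (QuotSMulTop x N) i) := by
  intro i hi
  exact sub_quot I (x • (LinearMap.id : N →ₗ[R] N)) (Submodule.mkQ (x • (⊤ : Submodule R N)))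
    (exact_smul x) hx (Submodule.mkQ_surjective _) (i + 1) i rfl (h0 _ (by omega))
    (h0 _ (by omega))

lemma quot_nontrivial [IsLocalRing R] {x : R} (hm : x ∈ maximalIdeal R) (hx : IsSMulRegular N x)
    (b : ℤ) (h1 : Nontrivial (hh I N b)) (hf : IsNoetherian R (hh I N b)) :
    Nontrivial (hh I (QuotSMulTop x N) (b - 1)) := by
  by_contra hn
  rw [not_nontrivial_iff_subsingleton] at hn
  obtain ⟨δ, h2, -⟩ := exact_right I (x • (LinearMap.id : N →ₗ[R] N))
    (Submodule.mkQ (x • (⊤ : Submodule R N))) (exact_smul x) hx (Submodule.mkQ_surjective _)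
    b (b - 1) (by ring)
  rw [hmap_smul, hmap_id] at h2
  have h3 : (⊤ : Submodule R (hh I N b)) ≤ maximalIdeal R • (⊤ : Submodule R (hh I N b)) := by
    intro y _
    obtain ⟨z, rfl⟩ := (h2 y).1 (Subsingleton.elim _ _)
    exact Submodule.smul_mem_smul hm trivial
  have h4 := Submodule.eq_bot_of_le_smul_of_le_jacobson_bot (maximalIdeal R) ⊤
    (IsNoetherian.noetherian _) h3 (IsLocalRing.maximalIdeal_le_jacobson _)
  exact not_subsingleton (hh I N b) ((Submodule.subsingleton_iff R).1
    (subsingleton_of_bot_eq_top h4.symm))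

end quot

/-- Going along a regular sequence. -/
theorem reg_seq [IsLocalRing R] [IsNoetherianRing R]
    (hfin : ∀ (N : Type u) [AddCommGroup N] [Module R N] [Module.Finite R N], ∀ i,
      IsNoetherian R (hh I N i)) (xs : List R) :
    ∀ (N : Type u) [AddCommGroup N] [Module R N] [Module.Finite R N] (b : ℤ),
    (∀ x ∈ xs, x ∈ maximalIdeal R) → (∀ i < b, Subsingleton (hh I N i)) →
    Nontrivial (hh I N b) → IsWeaklyRegular N xs →
    ∃ (N' : Type u) (_ : AddCommGroup N') (_ : Module R N') (_ : Module.Finite R N'),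
      (∀ i < b - xs.length, Subsingleton (hh I N' i)) ∧ Nontrivial (hh I N' (b - xs.length)) ∧
      (∀ y ∈ maximalIdeal R, IsSMulRegular N' y → ∃ ys : List R, ys.length = xs.length + 1 ∧
        (∀ x ∈ ys, x ∈ maximalIdeal R) ∧ IsWeaklyRegular N ys) := by
  induction xs with
  | nil =>
    intro N _ _ _ b _ h0 h1 _
    refine ⟨N, inferInstance, inferInstance, inferInstance, ?_, ?_, ?_⟩
    · simpa using h0
    · simpa using h1
    · intro y hy hyN
      exact ⟨[y], rfl, by simpa using hy, (isWeaklyRegular_singleton_iff N y).2 hyN⟩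
  | cons x xs ih =>
    intro N _ _ _ b hxs h0 h1 hreg
    rw [isWeaklyRegular_cons_iff] at hreg
    have hx : x ∈ maximalIdeal R := hxs x List.mem_cons_self
    obtain ⟨N', i1, i2, i3, h2, h3, h4⟩ := ih (QuotSMulTop x N) (b - 1)
      (fun y hy => hxs y (List.mem_cons_of_mem _ hy)) (quot_sub I hreg.1 b h0)
      (quot_nontrivial I hx hreg.1 b h1 (hfin N b)) hreg.2
    refine ⟨N', i1, i2, i3, ?_, ?_, ?_⟩
    · intro i hi
      exact h2 i (by rw [List.length_cons] at hi; push_cast at hi; omega)
    · have : b - ((x :: xs).length : ℤ) = b - 1 - xs.length := by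
        rw [List.length_cons]; push_cast; ring
      rw [this]
      exact h3
    · intro y hy hyN
      obtain ⟨ys, h5, h6, h7⟩ := h4 y hy hyN
      refine ⟨x :: ys, by simp [h5], ?_, (isWeaklyRegular_cons_iff _ _ _).2 ⟨hreg.1, h7⟩⟩
      intro z hz
      rcases List.mem_cons.1 hz with rfl | hz
      · exact hx
      · exact h6 z hz

/-- The exact sequence `0 → R/(J : x) → R/J → R/(J + x) → 0`. -/
lemma exists_colon (J : Ideal R) (x : R) :
    ∃ f : (R ⧸ (J.colon {x})) →ₗ[R] R ⧸ J, ∃ g : (R ⧸ J) →ₗ[R] R ⧸ (J ⊔ Ideal.span {x}),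
      Function.Injective f ∧ Function.Surjective g ∧ Function.Exact f g ∧
      ∀ r : R, f (Submodule.Quotient.mk r) = Submodule.Quotient.mk (r * x) := by
  have hcol : ∀ r : R, r ∈ J.colon {x} ↔ r * x ∈ J := by
    intro r
    rw [Submodule.mem_colon_singleton, smul_eq_mul]
  have hle1 : J.colon {x} ≤ Submodule.comap (LinearMap.mulRight R x) J := fun r hr =>
    Submodule.mem_comap.2 ((hcol r).1 hr)
  have hle2 : J ≤ Submodule.comap LinearMap.id (J ⊔ Ideal.span {x}) := fun r hr =>
    Submodule.mem_comap.2 ((le_sup_left : J ≤ _) hr)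
  refine ⟨Submodule.mapQ _ _ (LinearMap.mulRight R x) hle1,
    Submodule.mapQ _ _ LinearMap.id hle2, ?_, ?_, ?_, ?_⟩
  · rw [← LinearMap.ker_eq_bot, LinearMap.ker_eq_bot']
    intro q hq
    obtain ⟨r, rfl⟩ := Submodule.Quotient.mk_surjective _ q
    rw [Submodule.mapQ_apply, Submodule.Quotient.mk_eq_zero] at hq
    rw [Submodule.Quotient.mk_eq_zero]
    exact (hcol r).2 hq
  · intro q
    obtain ⟨r, rfl⟩ := Submodule.Quotient.mk_surjective _ q
    exact ⟨Submodule.Quotient.mk r, rfl⟩
  · intro q
    obtain ⟨r, rfl⟩ := Submodule.Quotient.mk_surjective _ q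
    rw [Submodule.mapQ_apply, Submodule.Quotient.mk_eq_zero]
    constructor
    · intro h
      obtain ⟨j, hj, y, hy, hjy⟩ := Submodule.mem_sup.1 h
      obtain ⟨c, rfl⟩ := Ideal.mem_span_singleton'.1 hy
      refine ⟨Submodule.Quotient.mk c, ?_⟩
      rw [Submodule.mapQ_apply, Submodule.Quotient.eq]
      have : LinearMap.mulRight R x c - r = -j := by
        rw [LinearMap.mulRight_apply]
        rw [LinearMap.id_apply] at hjy
        rw [← hjy]; ring
      rw [this]
      exact neg_mem hj
    · rintro ⟨q, hq⟩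
      obtain ⟨c, rfl⟩ := Submodule.Quotient.mk_surjective _ q
      rw [Submodule.mapQ_apply, Submodule.Quotient.eq] at hq
      have : LinearMap.id (R := R) r = - (LinearMap.mulRight R x c - r) + c * x := by
        rw [LinearMap.mulRight_apply, LinearMap.id_apply]; ring
      rw [this]
      exact add_mem (neg_mem ((le_sup_left : J ≤ _) hq))
        ((le_sup_right : Ideal.span {x} ≤ _) (Ideal.mul_mem_left _ _
          (Ideal.mem_span_singleton_self x)))
  · intro r
    rfl

/-- If `H_a(Hom(k, I)) = 0` in the lowest degree `a`, then `H_a(Hom(R/J, I)) = 0` for all `J`. -/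
theorem top_vanish [IsLocalRing R] [IsNoetherianRing R]
    (hfin : ∀ (N : Type u) [AddCommGroup N] [Module R N] [Module.Finite R N], ∀ i,
      IsNoetherian R (hh I N i)) (a : ℤ) (ha : ∀ i < a, IsZero (I.X i))
    (hk : Subsingleton (hh I (R ⧸ maximalIdeal R) a)) (J : Ideal R) :
    Subsingleton (hh I (R ⧸ J) a) := by
  induction J using IsNoetherian.induction with
  | _ J ih =>
    have h0 : ∀ (N : Type u) [AddCommGroup N] [Module R N], Subsingleton (hh I N (a - 1)) :=
      fun N _ _ => hh_zero I (ha _ (by omega))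
    by_cases hJ : J = ⊤
    · have : Subsingleton (R ⧸ J) := Submodule.Quotient.subsingleton_iff.2 hJ
      exact hh_subsingleton_module I a
    by_cases hm : J = maximalIdeal R
    · subst hm; exact hk
    have hlt : J < maximalIdeal R := lt_of_le_of_ne (IsLocalRing.le_maximalIdeal hJ) hm
    obtain ⟨x, hxm, hxJ⟩ := SetLike.exists_of_lt hlt
    obtain ⟨f, g, hf, hg, hfg, hfr⟩ := exists_colon J x
    have h1 : J < J ⊔ Ideal.span {x} := by
      refine lt_of_le_of_ne le_sup_left fun h => hxJ ?_
      rw [h]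
      exact (le_sup_right : Ideal.span {x} ≤ _) (Ideal.mem_span_singleton_self x)
    by_cases hcol : J.colon {x} = J
    · -- `x` is regular on `R/J`
      have hreg : Function.Injective (x • (LinearMap.id : (R ⧸ J) →ₗ[R] R ⧸ J)) := by
        rw [← LinearMap.ker_eq_bot, LinearMap.ker_eq_bot']
        intro q hq
        obtain ⟨r, rfl⟩ := Submodule.Quotient.mk_surjective _ q
        change x • (Submodule.Quotient.mk r : R ⧸ J) = 0 at hq
        rw [← Submodule.Quotient.mk_smul, Submodule.Quotient.mk_eq_zero, smul_eq_mul] at hq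
        rw [Submodule.Quotient.mk_eq_zero, ← hcol, Submodule.mem_colon_singleton, smul_eq_mul,
          mul_comm]
        exact hq
      obtain ⟨δ, h2, -⟩ := exact_right I (x • (LinearMap.id : (R ⧸ J) →ₗ[R] R ⧸ J))
        (Submodule.mkQ (x • (⊤ : Submodule R (R ⧸ J)))) (exact_smul x) hreg
        (Submodule.mkQ_surjective _) a (a - 1) (by ring)
      rw [hmap_smul, hmap_id] at h2
      have h3 : (⊤ : Submodule R (hh I (R ⧸ J) a)) ≤
          maximalIdeal R • (⊤ : Submodule R (hh I (R ⧸ J) a)) := by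
        intro y _
        obtain ⟨z, rfl⟩ := (h2 y).1 ((h0 _).elim _ _)
        exact Submodule.smul_mem_smul hxm trivial
      have := hfin (R ⧸ J) a
      have h4 := Submodule.eq_bot_of_le_smul_of_le_jacobson_bot (maximalIdeal R) ⊤
        (IsNoetherian.noetherian _) h3 (IsLocalRing.maximalIdeal_le_jacobson _)
      exact (Submodule.subsingleton_iff R).1 (subsingleton_of_bot_eq_top h4.symm)
    · have h2 : J < J.colon {x} := by
        refine lt_of_le_of_ne ?_ (Ne.symm hcol)
        intro r hr
        rw [Submodule.mem_colon_singleton, smul_eq_mul]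
        exact Ideal.mul_mem_right _ _ hr
      exact sub_mid I f g hfg hf hg a (ih _ h1) (ih _ h2)

end Pool.Agent.Q37.QI
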