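import Pool.Agent.Q37.QI.Top

/-!
# The truncated complex
-/

open CategoryTheory CategoryTheory.Limits CategoryTheory.Abelian Opposite IsLocalRing

namespace Pool.Agent.Q37.QI

open Pool.Agent.Q37.PC

universe u

variable {R : Type u} [CommRing R] (I : ChainComplex (ModuleCat.{u} R) ℤ)

/-- Comparison of homology modules of short complexes of modules. -/
lemma homology_equiv {S₁ S₂ : ShortComplex (ModuleCat.{u} R)} (φ : S₁.X₂ →ₗ[R] S₂.X₂)
    (hinj : Function.Injective φ) (h1 : ∀ x, S₁.g.hom x = 0 ↔ S₂.g.hom (φ x) = 0)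
    (h2 : ∀ y, S₂.g.hom y = 0 → ∃ x, φ x = y)
    (h3 : ∀ x, (∃ z, S₁.f.hom z = x) ↔ ∃ z, S₂.f.hom z = φ x) :
    Nonempty (S₁.homology ≃ₗ[R] S₂.homology) := by
  let ψ : LinearMap.ker S₁.g.hom →ₗ[R] LinearMap.ker S₂.g.hom :=
    φ.restrict (fun x hx => (h1 x).1 hx)
  have hψ : Function.Bijective ψ := by
    constructor
    · intro x y hxy
      exact Subtype.ext (hinj (congrArg Subtype.val hxy))
    · rintro ⟨y, hy⟩
      obtain ⟨x, rfl⟩ := h2 y hy
      exact ⟨⟨x, (h1 x).2 hy⟩, rfl⟩
  let e := LinearEquiv.ofBijective ψ hψ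
  have he : Submodule.map (e : LinearMap.ker S₁.g.hom →ₗ[R] LinearMap.ker S₂.g.hom)
      (LinearMap.range S₁.moduleCatToCycles) = LinearMap.range S₂.moduleCatToCycles := by
    ext y
    constructor
    · rintro ⟨x, ⟨z, rfl⟩, rfl⟩
      obtain ⟨w, hw⟩ := (h3 (S₁.f.hom z)).1 ⟨z, rfl⟩
      exact ⟨w, Subtype.ext hw⟩
    · rintro ⟨w, rfl⟩
      obtain ⟨x, hx⟩ := h2 (S₂.moduleCatToCycles w) (S₂.moduleCatToCycles w).2
      obtain ⟨z, hz⟩ := (h3 x).2 ⟨w, hx.symm⟩
      refine ⟨S₁.moduleCatToCycles z, ⟨z, rfl⟩, Subtype.ext ?_⟩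
      change φ (S₁.f.hom z) = _
      rw [hz, hx]
  exact ⟨S₁.moduleCatHomologyIso.toLinearEquiv.trans ((Submodule.Quotient.equiv _ _ e he).trans
    S₂.moduleCatHomologyIso.toLinearEquiv.symm)⟩

section trunc

variable (a : ℤ)

/-- `S_i = 0` for `i ≤ a`, and `S_i = ker (I_i → I_a)` otherwise. -/
noncomputable def trS (i : ℤ) : Submodule R (I.X i) :=
  if i ≤ a then ⊥ else LinearMap.ker (I.d i a).hom

lemma trS_of_le {i : ℤ} (h : i ≤ a) : trS I a i = ⊥ := if_pos h

lemma trS_of_gt {i : ℤ} (h : a < i) : trS I a i = LinearMap.ker (I.d i a).hom :=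
  if_neg (not_le.2 h)

lemma trS_top {i : ℤ} (h : a + 1 < i) : trS I a i = ⊤ := by
  rw [trS_of_gt I a (by omega), LinearMap.ker_eq_top]
  rw [I.shape i a (by simp only [ComplexShape.down_Rel]; omega)]
  rfl

lemma trS_d (i j : ℤ) : ∀ x ∈ trS I a i, (I.d i j).hom x ∈ trS I a j := by
  intro x hx
  by_cases hij : j + 1 = i
  · by_cases hi : i ≤ a
    · rw [trS_of_le I a hi, Submodule.mem_bot] at hx
      rw [hx, map_zero]
      exact Submodule.zero_mem _
    · by_cases hj : j ≤ a
      · have : j = a := by omega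
        subst this
        rw [trS_of_gt I j (by omega), LinearMap.mem_ker] at hx
        rw [hx]
        exact Submodule.zero_mem _
      · rw [trS_of_gt I a (by omega), LinearMap.mem_ker]
        have := I.d_comp_d i j a
        exact congrArg (fun f => f.hom x) this
  · rw [I.shape i j (by simpa using hij)]
    exact Submodule.zero_mem _

/-- The truncated complex. -/
noncomputable def trC : ChainComplex (ModuleCat.{u} R) ℤ where
  X i := ModuleCat.of R (trS I a i)
  d i j := ModuleCat.ofHom ((I.d i j).hom.restrict (trS_d I a i j))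
  shape i j hij := by
    refine ModuleCat.hom_ext (LinearMap.ext fun x => Subtype.ext ?_)
    change (I.d i j).hom x = 0
    rw [I.shape i j hij]
    rfl
  d_comp_d' i j k _ _ := by
    refine ModuleCat.hom_ext (LinearMap.ext fun x => Subtype.ext ?_)
    exact congrArg (fun f => f.hom x.1) (I.d_comp_d i j k)

lemma trC_isZero {i : ℤ} (h : i ≤ a) : IsZero ((trC I a).X i) := by
  rw [ModuleCat.isZero_iff_subsingleton]
  change Subsingleton (trS I a i)
  rw [trS_of_le I a h]
  infer_instance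

lemma trC_isZero' {i : ℤ} (h : IsZero (I.X i)) : IsZero ((trC I a).X i) := by
  rw [ModuleCat.isZero_iff_subsingleton] at h ⊢
  change Subsingleton (trS I a i)
  infer_instance

/-- The inclusion. -/
noncomputable def trι (i : ℤ) : (trC I a).X i ⟶ I.X i := ModuleCat.ofHom (trS I a i).subtype

lemma trι_inj (i : ℤ) : Function.Injective (trι I a i).hom := Subtype.val_injective

lemma trι_d (i j : ℤ) : (trC I a).d i j ≫ trι I a j = trι I a i ≫ I.d i j := rfl

/-- The homology of `Hom(C, -)` in high degrees. -/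
lemma trC_homology_equiv (C : Type u) [AddCommGroup C] [Module R C] (i : ℤ) (hi : a < i) :
    Nonempty (hh (trC I a) C i ≃ₗ[R] hh I C i) := by
  have h1 : (ComplexShape.down ℤ).prev i = i + 1 := ChainComplex.prev ℤ i
  have h2 : (ComplexShape.down ℤ).next i = i - 1 :=
    (ComplexShape.down ℤ).next_eq' (by simp)
  have e1 := ShortComplex.homologyMapIso ((HomC C (trC I a)).isoSc' (i + 1) i (i - 1) h1 h2)
  have e2 := ShortComplex.homologyMapIso ((HomC C I).isoSc' (i + 1) i (i - 1) h1 h2)
  refine (homology_equiv (S₁ := (HomC C (trC I a)).sc' (i + 1) i (i - 1))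
    (S₂ := (HomC C I).sc' (i + 1) i (i - 1))
    (((linearCoyoneda R (ModuleCat.{u} R)).obj (op (ModuleCat.of R C))).map (trι I a i)).hom
    ?_ ?_ ?_ ?_).map fun e => e1.toLinearEquiv.trans (e.trans e2.toLinearEquiv.symm)
  · intro φ ψ h
    refine ModuleCat.hom_ext (LinearMap.ext fun c => trι_inj I a i ?_)
    exact congrArg (fun f : ModuleCat.of R C ⟶ I.X i => f.hom c) h
  · intro (φ : ModuleCat.of R C ⟶ (trC I a).X i)
    change φ ≫ (trC I a).d i (i - 1) = 0 ↔ (φ ≫ trι I a i) ≫ I.d i (i - 1) = 0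
    rw [Category.assoc, ← trι_d]
    constructor
    · intro h
      rw [← Category.assoc, h, zero_comp]
    · intro h
      refine ModuleCat.hom_ext (LinearMap.ext fun c => trι_inj I a (i - 1) ?_)
      exact congrArg (fun f : ModuleCat.of R C ⟶ I.X (i - 1) => f.hom c) h
  · intro (ψ : ModuleCat.of R C ⟶ I.X i) hψ
    change ψ ≫ I.d i (i - 1) = 0 at hψ
    have hS : ∀ c, ψ.hom c ∈ trS I a i := by
      intro c
      rw [trS_of_gt I a hi, LinearMap.mem_ker]
      by_cases hia : i - 1 = a
      · subst hia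
        exact congrArg (fun f : ModuleCat.of R C ⟶ I.X (i - 1) => f.hom c) hψ
      · rw [I.shape i a (by simp only [ComplexShape.down_Rel]; omega)]
        rfl
    exact ⟨ModuleCat.ofHom (LinearMap.codRestrict (trS I a i) ψ.hom hS), rfl⟩
  · intro (φ : ModuleCat.of R C ⟶ (trC I a).X i)
    change (∃ z : ModuleCat.of R C ⟶ (trC I a).X (i + 1), z ≫ (trC I a).d (i + 1) i = φ) ↔
      ∃ z : ModuleCat.of R C ⟶ I.X (i + 1), z ≫ I.d (i + 1) i = φ ≫ trι I a i
    constructor
    · rintro ⟨z, rfl⟩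
      exact ⟨z ≫ trι I a (i + 1), by rw [Category.assoc, Category.assoc, trι_d]⟩
    · rintro ⟨z, hz⟩
      have hS : ∀ c, z.hom c ∈ trS I a (i + 1) := by
        intro c
        rw [trS_top I a (by omega)]
        trivial
      refine ⟨ModuleCat.ofHom (LinearMap.codRestrict (trS I a (i + 1)) z.hom hS), ?_⟩
      refine ModuleCat.hom_ext (LinearMap.ext fun c => trι_inj I a i ?_)
      exact congrArg (fun f : ModuleCat.of R C ⟶ I.X i => f.hom c) hz

/-- If `H_a(Hom(R/J, I)) = 0` for all `J` in the lowest degree `a`, homs `R/J → I_a` lift. -/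
lemma lift_of_hh (ha : ∀ i < a, IsZero (I.X i)) (N : Type u) [AddCommGroup N] [Module R N]
    (h : Subsingleton (hh I N a)) (φ : N →ₗ[R] I.X a) :
    ∃ ψ : N →ₗ[R] I.X (a + 1), ∀ x, (I.d (a + 1) a).hom (ψ x) = φ x := by
  have h1 : (ComplexShape.down ℤ).prev a = a + 1 := ChainComplex.prev ℤ a
  have h2 : (ComplexShape.down ℤ).next a = a - 1 :=
    (ComplexShape.down ℤ).next_eq' (by simp)
  have e1 := ShortComplex.homologyMapIso ((HomC N I).isoSc' (a + 1) a (a - 1) h1 h2)
  have h3 : ((HomC N I).sc' (a + 1) a (a - 1)).Exact := by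
    rw [ShortComplex.exact_iff_isZero_homology]
    rw [← ModuleCat.isZero_iff_subsingleton] at h
    exact h.of_iso e1.symm
  rw [ShortComplex.moduleCat_exact_iff] at h3
  obtain ⟨ψ, hψ⟩ := h3 (ModuleCat.ofHom φ) ((ha (a - 1) (by omega)).eq_of_tgt _ _)
  exact ⟨ψ.hom, fun x => congrArg (fun f : ModuleCat.of R N ⟶ I.X a => f.hom x) hψ⟩

lemma trC_injective [hI : ∀ i, Injective (I.X i)] (ha : ∀ i < a, IsZero (I.X i))
    (h : ∀ J : Ideal R, Subsingleton (hh I (R ⧸ J) a)) (i : ℤ) : Injective ((trC I a).X i) := by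
  have hinj : Module.Injective R (I.X i) :=
    Module.injective_module_of_injective_object R (I.X i)
  rcases lt_trichotomy i (a + 1) with hi | hi | hi
  · have h1 := trC_isZero I a (i := i) (by omega)
    exact h1.injective
  · subst hi
    have hker : ∀ y ∈ trS I a (a + 1), (I.d (a + 1) a).hom y = 0 := by
      intro y hy
      rwa [trS_of_gt I a (by omega), LinearMap.mem_ker] at hy
    have hB : Module.Baer R (trS I a (a + 1)) := by
      intro J g
      obtain ⟨G, hG⟩ := Module.Baer.of_injective hinj J ((trS I a (a + 1)).subtype ∘ₗ g)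
      have hJ : J ≤ LinearMap.ker ((I.d (a + 1) a).hom ∘ₗ G) := by
        intro x hx
        rw [LinearMap.mem_ker, LinearMap.comp_apply, hG x hx]
        exact hker _ (g ⟨x, hx⟩).2
      obtain ⟨L, hL⟩ := lift_of_hh I a ha (R ⧸ J) (h J) (J.liftQ _ hJ)
      have hS : ∀ r : R, (G - L ∘ₗ J.mkQ) r ∈ trS I a (a + 1) := by
        intro r
        rw [trS_of_gt I a (by omega), LinearMap.mem_ker, LinearMap.sub_apply, map_sub,
          LinearMap.comp_apply, hL]
        exact sub_self _
      refine ⟨LinearMap.codRestrict _ _ hS, fun x hx => Subtype.ext ?_⟩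
      change G x - L (J.mkQ x) = _
      rw [hG x hx, Submodule.mkQ_apply, (Submodule.Quotient.mk_eq_zero J).2 hx, map_zero, sub_zero]
      rfl
    exact Module.injective_object_of_injective_module R (trS I a (a + 1)) (inj := hB.injective)
  · have e : trS I a i ≃ₗ[R] I.X i :=
      (LinearEquiv.ofEq _ _ (trS_top I a hi)).trans Submodule.topEquiv
    have h2 : Injective (ModuleCat.of R (I.X i)) :=
      Module.injective_object_of_injective_module R (I.X i)
    exact Injective.of_iso e.symm.toModuleIso h2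

end trunc

end Pool.Agent.Q37.QI
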